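import Mathlib

set_option autoImplicit false

/-!
# Graphs without the Ramsey repeated degree property

The complete graph `K_m` minus an edge, `m ≥ 8`, does not have the Ramsey repeated degree property.

The colouring.  For `t ≥ 1` the vertices of `K_(12 t)` are the pairs `(g, i)`, `g < 12`, `i < t`.
The edge between `(g, i)` and `(h, j)` is red if `X g h = 1`, blue if `X g h = 0`, and, if
`X g h = 2`, it is red exactly if `i + j ≥ t`; `X` is a symmetric table.  The groups `0, …, 5` are
red cliques, the groups `6, …, 11` are blue cliques.  The red degree of `(g, i)` is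
`t * lev g + i`, minus one if `g < 6`.  The only vertices with the same degree are `(g, i)` and
`(g', i)` where `{g, g'}` is one of `{2, 3}, {4, 5}, {8, 9}, {10, 11}`; every vertex of the first
six groups is blue to at least one of the two, and every vertex of the last six groups is red to at
least one of the two.  So the common red neighbours of two vertices of the same degree lie in six
blue cliques, and the table is such that among them there are no five with only red edges; the same
with the colours exchanged.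
-/

namespace Pool.Agent.Results.MP_6c10c0_co.AlmostCompleteGraphs

open Finset

/-- A red/blue colouring of the edges of the complete graph on `n` vertices: the edge `{v, w}`,
`v ≠ w`, is red if `c s(v, w) = true` and blue if `c s(v, w) = false`. -/
abbrev Colouring (n : ℕ) := Sym2 (Fin n) → Bool

/-- The red degree (`x = true`) or blue degree (`x = false`) of the vertex `v`. -/
def deg {n : ℕ} (c : Colouring n) (x : Bool) (v : Fin n) : ℕ :=
  (univ.filter fun w => w ≠ v ∧ c s(v, w) = x).card

/-- Two vertices have the same degree in the coloured complete graph. -/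
def SameDegree {n : ℕ} (c : Colouring n) (v w : Fin n) : Prop :=
  deg c true v = deg c true w

/-- `f` is (the embedding of) a copy of `G` all of whose edges have the colour `x`. -/
def IsCopy {V : Type*} (G : SimpleGraph V) {n : ℕ} (c : Colouring n) (x : Bool)
    (f : V → Fin n) : Prop :=
  Function.Injective f ∧ ∀ a b, G.Adj a b → c s(f a, f b) = x

/-- The Ramsey repeated degree property. -/
def RepeatedDegreeProperty {V : Type*} (G : SimpleGraph V) : Prop :=
  ∃ n₀ : ℕ, ∀ n : ℕ, n₀ ≤ n → ∀ c : Colouring n, ∃ (x : Bool) (f : V → Fin n), IsCopy G c x f ∧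
    ∃ a b : V, a ≠ b ∧ SameDegree c (f a) (f b)

/-! ### The table -/

/-- The table. -/
def tab : List (List ℕ) :=
  [[1,0,0,0,0,0,0,1,2,0,0,0],
   [0,1,0,0,0,2,1,0,0,1,0,0],
   [0,0,1,0,2,0,1,0,1,0,0,1],
   [0,0,0,1,0,0,2,1,0,1,1,0],
   [0,0,2,0,1,0,1,1,1,0,0,1],
   [0,2,0,0,0,1,1,1,0,1,1,0],
   [0,1,1,2,1,1,0,1,1,1,1,1],
   [1,0,0,1,1,1,1,0,1,1,2,1],
   [2,0,1,0,1,0,1,1,0,1,1,1],
   [0,1,0,1,0,1,1,1,1,0,1,2],
   [0,0,0,1,0,1,1,2,1,1,0,1],
   [0,0,1,0,1,0,1,1,1,2,1,0]]

/-- The entries of the table. -/
def X (g h : Fin 12) : ℕ := (tab.getD g.val []).getD h.val 0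

/-- The levels of the groups. -/
def lev (g : Fin 12) : ℕ := [2,3,4,4,5,5,9,8,7,7,6,6].getD g.val 0

theorem X_symm : ∀ g h : Fin 12, X g h = X h g := by decide

theorem X_le : ∀ g h : Fin 12, X g h = 0 ∨ X g h = 1 ∨ X g h = 2 := by decide

theorem X_self : ∀ g : Fin 12, X g g = if g.val < 6 then 1 else 0 := by decide

theorem ones : ∀ g : Fin 12, (∑ h : Fin 12, if X g h = 1 then 1 else 0) = lev g := by decide

theorem halves : ∀ g : Fin 12, (∑ h : Fin 12, if X g h = 2 then 1 else 0) = 1 := by decide

theorem lev_low : ∀ g : Fin 12, g.val < 6 → lev g ≤ 5 := by decide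

theorem lev_high : ∀ g : Fin 12, 6 ≤ g.val → 6 ≤ lev g := by decide

/-- Groups of the same level: a vertex of the groups `0, …, 5` is blue to one of the two. -/
theorem pair_low : ∀ g g' : Fin 12, g ≠ g' → lev g = lev g' → ∀ h : Fin 12, h.val < 6 →
    X g h = 0 ∨ X g' h = 0 := by decide

/-- Groups of the same level: a vertex of the groups `6, …, 11` is red to one of the two. -/
theorem pair_high : ∀ g g' : Fin 12, g ≠ g' → lev g = lev g' → ∀ h : Fin 12, 6 ≤ h.val →
    X g h = 1 ∨ X g' h = 1 := by decide

/-! ### The colouring -/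

/-- The colour of the edge between `p` and `q`, in coordinates. -/
def R (t : ℕ) (p q : Fin 12 × Fin t) : Bool :=
  decide (X p.1 q.1 = 1 ∨ (X p.1 q.1 = 2 ∧ t ≤ p.2.val + q.2.val))

theorem R_symm (t : ℕ) (p q : Fin 12 × Fin t) : R t p q = R t q p := by
  unfold R
  rw [X_symm p.1 q.1, Nat.add_comm p.2.val]

/-- The coordinates of a vertex. -/
def co {t : ℕ} (v : Fin (12 * t)) : Fin 12 × Fin t := finProdFinEquiv.symm v

/-- The colouring of the complete graph on `12 t` vertices. -/
def col (t : ℕ) : Colouring (12 * t) :=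
  Sym2.lift ⟨fun v w => R t (co v) (co w), fun _ _ => R_symm t _ _⟩

theorem col_mk (t : ℕ) (v w : Fin (12 * t)) : col t s(v, w) = R t (co v) (co w) := rfl

theorem co_inj {t : ℕ} {v w : Fin (12 * t)} (h : co v = co w) : v = w :=
  finProdFinEquiv.symm.injective h

theorem R_true {t : ℕ} {p q : Fin 12 × Fin t} (h : R t p q = true) : X p.1 q.1 ≠ 0 := by
  unfold R at h
  have h' := of_decide_eq_true h
  omega

theorem R_false {t : ℕ} {p q : Fin 12 × Fin t} (h : R t p q = false) : X p.1 q.1 ≠ 1 := by
  unfold R at h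
  have h' := of_decide_eq_false h
  omega

theorem count_ge (t : ℕ) (i : Fin t) :
    (∑ j : Fin t, if t ≤ i.val + j.val then 1 else 0) = i.val := by
  rw [Fin.sum_univ_eq_sum_range (fun j => if t ≤ i.val + j then 1 else 0) t,
    ← Finset.card_filter]
  have h : (range t).filter (fun j => t ≤ i.val + j) = Ico (t - i.val) t := by
    ext j
    simp only [mem_filter, mem_range, mem_Ico]
    have := i.isLt
    omega
  rw [h, Nat.card_Ico]
  have := i.isLt
  omega

theorem row_sum (t : ℕ) (p : Fin 12 × Fin t) (h : Fin 12) :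
    (∑ j : Fin t, if R t p (h, j) = true then 1 else 0)
      = (if X p.1 h = 1 then 1 else 0) * t + (if X p.1 h = 2 then 1 else 0) * p.2.val := by
  rcases X_le p.1 h with h0 | h0 | h0
  · simp [R, h0]
  · simp [R, h0]
  · have : ∀ j : Fin t, (if R t p (h, j) = true then 1 else 0)
        = (if t ≤ p.2.val + j.val then 1 else 0 : ℕ) := by
      intro j
      simp [R, h0]
    rw [Finset.sum_congr rfl fun j _ => this j, count_ge]
    simp [h0]

theorem total (t : ℕ) (p : Fin 12 × Fin t) :
    (∑ q : Fin 12 × Fin t, if R t p q = true then 1 else 0) = t * lev p.1 + p.2.val := by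
  rw [Fintype.sum_prod_type]
  simp only [row_sum]
  rw [Finset.sum_add_distrib, ← Finset.sum_mul, ← Finset.sum_mul, ones, halves]
  ring

theorem R_self {t : ℕ} (p : Fin 12 × Fin t) : R t p p = decide (p.1.val < 6) := by
  unfold R
  have h := X_self p.1
  by_cases h6 : p.1.val < 6
  · simp [h6] at h
    simp [h6, h]
  · simp only [h6, if_false] at h
    simp [h6, h]

theorem deg_eq (t : ℕ) (v : Fin (12 * t)) :
    deg (col t) true v + (if (co v).1.val < 6 then 1 else 0)
      = t * lev (co v).1 + (co v).2.val := by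
  rw [← total, deg, Finset.card_filter]
  have h1 : (∑ w : Fin (12 * t), if w ≠ v ∧ col t s(v, w) = true then 1 else 0)
      = ∑ q : Fin 12 × Fin t, (if q ≠ co v ∧ R t (co v) q = true then 1 else 0 : ℕ) := by
    refine Fintype.sum_equiv finProdFinEquiv.symm _ _ fun w => ?_
    have h2 : (w ≠ v) ↔ (finProdFinEquiv.symm w ≠ co v) := by
      rw [not_iff_not]
      exact ⟨fun h => by rw [h]; rfl, fun h => co_inj h⟩
    simp only [col_mk, h2]
    rfl
  have h3 : (if (co v).1.val < 6 then 1 else 0)
      = ∑ q : Fin 12 × Fin t, (if q = co v then (if (co v).1.val < 6 then 1 else 0) else 0 : ℕ) := by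
    rw [Finset.sum_ite_eq' univ (co v)]
    simp
  rw [h1, h3, ← Finset.sum_add_distrib]
  refine Finset.sum_congr rfl fun q _ => ?_
  by_cases hq : q = co v
  · subst hq
    simp [R_self]
  · simp [hq]

theorem aux (t a b i j : ℕ) (hi : i < t) (hj : j < t) (h : t * a + i = t * b + j) :
    a = b ∧ i = j := by
  have hab : a = b := by
    rcases Nat.lt_trichotomy a b with h1 | h1 | h1
    · exfalso
      have : t * (a + 1) ≤ t * b := Nat.mul_le_mul_left _ h1
      rw [Nat.mul_add, Nat.mul_one] at this
      omega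
    · exact h1
    · exfalso
      have : t * (b + 1) ≤ t * a := Nat.mul_le_mul_left _ h1
      rw [Nat.mul_add, Nat.mul_one] at this
      omega
  subst hab
  exact ⟨rfl, by omega⟩

theorem same_degree {t : ℕ} {v w : Fin (12 * t)} (hvw : v ≠ w) (h : SameDegree (col t) v w) :
    (co v).1 ≠ (co w).1 ∧ lev (co v).1 = lev (co w).1 := by
  unfold SameDegree at h
  have hv := deg_eq t v
  have hw := deg_eq t w
  have iv := (co v).2.isLt
  have iw := (co w).2.isLt
  have lv := lev_low (co v).1
  have lw := lev_low (co w).1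
  have lv' := lev_high (co v).1
  have lw' := lev_high (co w).1
  rw [h] at hv
  have key : lev (co v).1 = lev (co w).1 ∧ (co v).2.val = (co w).2.val := by
    by_cases h1 : (co v).1.val < 6 <;> by_cases h2 : (co w).1.val < 6
    · simp only [h1, h2, if_true] at hv hw
      have e : t * lev (co v).1 + (co v).2.val = t * lev (co w).1 + (co w).2.val := by omega
      exact aux t _ _ _ _ iv iw e
    · exfalso
      simp only [h1, h2, if_true, if_false] at hv hw
      have a1 : t * lev (co v).1 ≤ t * 5 := Nat.mul_le_mul_left _ (lv h1)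
      have a2 : t * 6 ≤ t * lev (co w).1 := Nat.mul_le_mul_left _ (lw' (by omega))
      omega
    · exfalso
      simp only [h1, h2, if_true, if_false] at hv hw
      have a1 : t * lev (co w).1 ≤ t * 5 := Nat.mul_le_mul_left _ (lw h2)
      have a2 : t * 6 ≤ t * lev (co v).1 := Nat.mul_le_mul_left _ (lv' (by omega))
      omega
    · simp only [h1, h2, if_false] at hv hw
      have e : t * lev (co v).1 + (co v).2.val = t * lev (co w).1 + (co w).2.val := by omega
      exact aux t _ _ _ _ iv iw e
  refine ⟨fun hg => hvw (co_inj (Prod.ext hg (Fin.ext key.2))), key.1⟩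

/-! ### Monochromatic cliques among the common neighbours -/

theorem red_groups : ∀ g g' : Fin 12, g ≠ g' → lev g = lev g' →
    (univ.filter fun h : Fin 12 => X g h ≠ 0 ∧ X g' h ≠ 0 ∧ 6 ≤ h.val).card ≤ 4 := by decide

theorem blue_groups : ∀ g g' : Fin 12, g ≠ g' → lev g = lev g' →
    (univ.filter fun h : Fin 12 => X g h ≠ 1 ∧ X g' h ≠ 1 ∧ h.val < 6).card ≤ 4 := by decide

/-- Two vertices of the same degree do not have five common neighbours in a colour which are
pairwise joined by edges of this colour. -/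
theorem no_five {t : ℕ} {v w : Fin (12 * t)} (hvw : v ≠ w) (h : SameDegree (col t) v w)
    (x : Bool) (S : Finset (Fin (12 * t))) (hS : S.card = 5)
    (h1 : ∀ y ∈ S, col t s(v, y) = x ∧ col t s(w, y) = x)
    (h2 : ∀ y ∈ S, ∀ z ∈ S, y ≠ z → col t s(y, z) = x) : False := by
  obtain ⟨hg, hl⟩ := same_degree hvw h
  cases x with
  | true =>
    have hmem : ∀ y ∈ S, (co y).1 ∈
        univ.filter fun h : Fin 12 => X (co v).1 h ≠ 0 ∧ X (co w).1 h ≠ 0 ∧ 6 ≤ h.val := by
      intro y hy
      have hv : X (co v).1 (co y).1 ≠ 0 := R_true (h1 y hy).1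
      have hw : X (co w).1 (co y).1 ≠ 0 := R_true (h1 y hy).2
      refine mem_filter.mpr ⟨mem_univ _, hv, hw, ?_⟩
      by_contra h6
      rcases pair_low _ _ hg hl (co y).1 (by omega) with h0 | h0
      · exact hv h0
      · exact hw h0
    have hinj : ∀ y ∈ S, ∀ z ∈ S, (co y).1 = (co z).1 → y = z := by
      intro y hy z hz he
      by_contra hne
      have h0 : X (co y).1 (co z).1 ≠ 0 := R_true (h2 y hy z hz hne)
      have h6 : 6 ≤ (co y).1.val := (mem_filter.mp (hmem y hy)).2.2.2
      rw [← he] at h0
      have hs := X_self (co y).1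
      rw [if_neg (by omega)] at hs
      exact h0 hs
    have hc := Finset.card_le_card_of_injOn (fun y => (co y).1) hmem
      (fun y hy z hz he => hinj y hy z hz he)
    have := red_groups _ _ hg hl
    omega
  | false =>
    have hmem : ∀ y ∈ S, (co y).1 ∈
        univ.filter fun h : Fin 12 => X (co v).1 h ≠ 1 ∧ X (co w).1 h ≠ 1 ∧ h.val < 6 := by
      intro y hy
      have hv : X (co v).1 (co y).1 ≠ 1 := R_false (h1 y hy).1
      have hw : X (co w).1 (co y).1 ≠ 1 := R_false (h1 y hy).2
      refine mem_filter.mpr ⟨mem_univ _, hv, hw, ?_⟩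
      by_contra h6
      rcases pair_high _ _ hg hl (co y).1 (by omega) with h0 | h0
      · exact hv h0
      · exact hw h0
    have hinj : ∀ y ∈ S, ∀ z ∈ S, (co y).1 = (co z).1 → y = z := by
      intro y hy z hz he
      by_contra hne
      have h0 : X (co y).1 (co z).1 ≠ 1 := R_false (h2 y hy z hz hne)
      have h6 : (co y).1.val < 6 := (mem_filter.mp (hmem y hy)).2.2.2
      rw [← he] at h0
      have hs := X_self (co y).1
      rw [if_pos h6] at hs
      exact h0 hs
    have hc := Finset.card_le_card_of_injOn (fun y => (co y).1) hmem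
      (fun y hy z hz he => hinj y hy z hz he)
    have := blue_groups _ _ hg hl
    omega

/-- Any two distinct vertices of `G` have five pairwise adjacent common neighbours. -/
def FiveCommon {V : Type*} (G : SimpleGraph V) : Prop :=
  ∀ a b : V, a ≠ b → ∃ s : Finset V, s.card = 5 ∧ (∀ y ∈ s, G.Adj a y ∧ G.Adj b y) ∧
    ∀ y ∈ s, ∀ z ∈ s, y ≠ z → G.Adj y z

theorem good_colouring {V : Type*} (G : SimpleGraph V) (hG : FiveCommon G) (t : ℕ) (x : Bool)
    (f : V → Fin (12 * t)) (hf : IsCopy G (col t) x f) (a b : V) (hab : a ≠ b) :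
    ¬ SameDegree (col t) (f a) (f b) := by
  classical
  intro hd
  obtain ⟨s, hs, h1, h2⟩ := hG a b hab
  refine no_five (fun h => hab (hf.1 h)) hd x (s.image f) ?_ ?_ ?_
  · rw [Finset.card_image_of_injective _ hf.1, hs]
  · intro y hy
    obtain ⟨z, hz, rfl⟩ := Finset.mem_image.mp hy
    exact ⟨hf.2 _ _ (h1 z hz).1, hf.2 _ _ (h1 z hz).2⟩
  · intro y hy z hz hyz
    obtain ⟨y', hy', rfl⟩ := Finset.mem_image.mp hy
    obtain ⟨z', hz', rfl⟩ := Finset.mem_image.mp hz
    exact hf.2 _ _ (h2 y' hy' z' hz' (fun h => hyz (by rw [h])))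

theorem fails {V : Type*} (G : SimpleGraph V) (hG : FiveCommon G) :
    ¬ RepeatedDegreeProperty G := by
  rintro ⟨n₀, h⟩
  obtain ⟨x, f, hf, a, b, hab, hd⟩ := h (12 * n₀) (by omega) (col n₀)
  exact good_colouring G hG n₀ x f hf a b hab hd

/-! ### Complete graphs minus an edge -/

theorem fiveCommon_deleteEdge {m : ℕ} (hm : 8 ≤ m) (u v : Fin m) :
    FiveCommon ((⊤ : SimpleGraph (Fin m)).deleteEdges {s(u, v)}) := by
  intro a b hab
  have hcard : 5 ≤ (univ \ {a, b, if a = u ∨ b = u then v else u} : Finset (Fin m)).card := by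
    have h1 := Finset.le_card_sdiff {a, b, if a = u ∨ b = u then v else u} (univ : Finset (Fin m))
    have h2 : ({a, b, if a = u ∨ b = u then v else u} : Finset (Fin m)).card ≤ 3 :=
      Finset.card_le_three
    rw [Finset.card_univ, Fintype.card_fin] at h1
    omega
  obtain ⟨s, hs, hs5⟩ := Finset.exists_subset_card_eq hcard
  have hmem : ∀ y ∈ s, y ≠ a ∧ y ≠ b ∧ y ≠ (if a = u ∨ b = u then v else u) := by
    intro y hy
    have := hs hy
    simp only [mem_sdiff, mem_univ, true_and, mem_insert, mem_singleton, not_or] at this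
    exact this
  refine ⟨s, hs5, ?_, ?_⟩
  · intro y hy
    obtain ⟨h1, h2, h3⟩ := hmem y hy
    simp only [SimpleGraph.deleteEdges_adj, SimpleGraph.top_adj, Set.mem_singleton_iff,
      Sym2.eq_iff]
    split_ifs at h3 <;> grind
  · intro y hy z hz hyz
    obtain ⟨h1, h2, h3⟩ := hmem y hy
    obtain ⟨h4, h5, h6⟩ := hmem z hz
    simp only [SimpleGraph.deleteEdges_adj, SimpleGraph.top_adj, Set.mem_singleton_iff,
      Sym2.eq_iff]
    split_ifs at h3 h6 <;> grind

theorem not_complete {m : ℕ} {u v : Fin m} (huv : u ≠ v) (k : ℕ) :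
    IsEmpty ((⊤ : SimpleGraph (Fin m)).deleteEdges {s(u, v)} ≃g (⊤ : SimpleGraph (Fin k))) := by
  refine ⟨fun e => ?_⟩
  have h1 : (⊤ : SimpleGraph (Fin k)).Adj (e u) (e v) := by
    rw [SimpleGraph.top_adj]
    exact fun h => huv (e.injective h)
  rw [e.map_adj_iff] at h1
  simp at h1

/-! ### Complete multipartite graphs -/

theorem fiveCommon_multipartite {ι : Type*} [Fintype ι] (hι : 7 ≤ Fintype.card ι) (W : ι → Type*)
    [∀ i, Nonempty (W i)] : FiveCommon (SimpleGraph.completeMultipartiteGraph W) := by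
  classical
  intro a b _
  have hcard : 5 ≤ (univ \ {a.1, b.1} : Finset ι).card := by
    have h1 := Finset.le_card_sdiff {a.1, b.1} (univ : Finset ι)
    have h2 : ({a.1, b.1} : Finset ι).card ≤ 2 := Finset.card_le_two
    rw [Finset.card_univ] at h1
    omega
  obtain ⟨s, hs, hs5⟩ := Finset.exists_subset_card_eq hcard
  let r : ι → (Σ i, W i) := fun i => ⟨i, Classical.arbitrary (W i)⟩
  have hr : Function.Injective r := fun i j h => congrArg Sigma.fst h
  refine ⟨s.image r, ?_, ?_, ?_⟩
  · rw [Finset.card_image_of_injective _ hr, hs5]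
  · intro y hy
    obtain ⟨i, hi, rfl⟩ := Finset.mem_image.mp hy
    have := hs hi
    simp only [mem_sdiff, mem_univ, true_and, mem_insert, mem_singleton, not_or] at this
    simp only [SimpleGraph.completeMultipartiteGraph, SimpleGraph.comap_adj, SimpleGraph.top_adj]
    exact ⟨fun h => this.1 h.symm, fun h => this.2 h.symm⟩
  · intro y hy z hz hyz
    obtain ⟨i, hi, rfl⟩ := Finset.mem_image.mp hy
    obtain ⟨j, hj, rfl⟩ := Finset.mem_image.mp hz
    simp only [SimpleGraph.completeMultipartiteGraph, SimpleGraph.comap_adj, SimpleGraph.top_adj]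
    exact fun h => hyz (congrArg r h)

/-! ### The result -/

/-- **Answer to Q1.**  There are graphs other than complete graphs without the Ramsey repeated
degree property.

* Let `G` be a graph in which any two distinct vertices have five pairwise adjacent common
  neighbours.  For every `t` there is a colouring of the edges of the complete graph on `12 t`
  vertices for which no monochromatic copy of `G` has two distinct vertices of the same degree; so
  `G` does not have the Ramsey repeated degree property.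
* `K_m` minus an edge, `m ≥ 8`, is not a complete graph and does not have the property.
* Complete multipartite graphs with at least seven (non-empty) parts do not have the property.
* The answer to Q1 as it is asked. -/
theorem result :
    (∀ (V : Type) (G : SimpleGraph V), FiveCommon G →
      (∀ t : ℕ, ∃ c : Colouring (12 * t), ∀ (x : Bool) (f : V → Fin (12 * t)), IsCopy G c x f →
        ∀ a b : V, a ≠ b → ¬ SameDegree c (f a) (f b)) ∧ ¬ RepeatedDegreeProperty G) ∧
    (∀ m : ℕ, 8 ≤ m → ∀ u v : Fin m, u ≠ v →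
      (∀ k : ℕ, IsEmpty
        ((⊤ : SimpleGraph (Fin m)).deleteEdges {s(u, v)} ≃g (⊤ : SimpleGraph (Fin k)))) ∧
      ¬ RepeatedDegreeProperty ((⊤ : SimpleGraph (Fin m)).deleteEdges {s(u, v)})) ∧
    (∀ (r : ℕ) (W : Fin r → Type), 7 ≤ r → (∀ i, Nonempty (W i)) →
      ¬ RepeatedDegreeProperty (SimpleGraph.completeMultipartiteGraph W)) ∧
    (∃ (k : ℕ) (G : SimpleGraph (Fin k)), 2 ≤ k ∧
      (∀ m : ℕ, 4 ≤ m → IsEmpty (G ≃g (⊤ : SimpleGraph (Fin m)))) ∧
      ¬ RepeatedDegreeProperty G) := by
  refine ⟨fun V G hG => ⟨fun t => ⟨col t, fun x f hf a b hab => ?_⟩, fails G hG⟩, ?_, ?_, ?_⟩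
  · exact good_colouring G hG t x f hf a b hab
  · intro m hm u v huv
    exact ⟨not_complete huv, fails _ (fiveCommon_deleteEdge hm u v)⟩
  · intro r W hr hW
    exact fails _ (fiveCommon_multipartite (by rwa [Fintype.card_fin]) W)
  · refine ⟨8, (⊤ : SimpleGraph (Fin 8)).deleteEdges {s(0, 1)}, by norm_num, ?_, ?_⟩
    · intro m _
      exact not_complete (by decide) m
    · exact fails _ (fiveCommon_deleteEdge le_rfl 0 1)

end Pool.Agent.Results.MP_6c10c0_co.AlmostCompleteGraphs
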